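import Mathlib
import Pool.Agent.H14IIB.Asm

set_option autoImplicit false

open MeasureTheory Set Filter Topology
open scoped ENNReal Pointwise

namespace Pool.Agent.Results.MP_5ac201_gt.IteratedIntersection

/-- `K` is an origin-symmetric convex body in `ℝⁿ`: compact, convex, with non-empty interior,
and `-x ∈ K` for every `x ∈ K`. -/
def IsSymmBody {n : ℕ} (K : Set (EuclideanSpace ℝ (Fin n))) : Prop :=
  IsCompact K ∧ Convex ℝ K ∧ (interior K).Nonempty ∧ ∀ x ∈ K, -x ∈ K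

/-- The intersection body `IK`, the star body with radial function
`u ↦ vol_{n-1} (K ∩ u^⊥)`: it contains `0`, and `x ≠ 0` belongs to it iff
`‖x‖ ≤ vol_{n-1} (K ∩ x^⊥)`.  `μHE[n - 1]` is the `(n-1)`-dimensional volume
(Euclidean Hausdorff measure). -/
def intersectionBody {n : ℕ} (K : Set (EuclideanSpace ℝ (Fin n))) :
    Set (EuclideanSpace ℝ (Fin n)) :=
  {x | x = 0 ∨ ENNReal.ofReal ‖x‖ ≤ μHE[n - 1] (K ∩ {y | inner ℝ x y = 0})}

/-- The Banach–Mazur distance `inf {λ ≥ 1 : ∃ T ∈ GL_n, B ⊆ T A ⊆ λ B}`. -/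
noncomputable def banachMazur {n : ℕ} (A B : Set (EuclideanSpace ℝ (Fin n))) : ℝ :=
  sInf {l : ℝ | 1 ≤ l ∧ ∃ T : EuclideanSpace ℝ (Fin n) ≃ₗ[ℝ] EuclideanSpace ℝ (Fin n),
    B ⊆ T '' A ∧ T '' A ⊆ l • B}

theorem isBody {n : ℕ} {K : Set (EuclideanSpace ℝ (Fin n))} (h : IsSymmBody K) :
    Pool.Agent.H14IIB.Body K := ⟨h.1, h.2.1, h.2.2.1, h.2.2.2⟩

/-- For `n ≥ 3` the iterated intersection bodies of every origin-symmetric convex body converge to
the Euclidean ball in the Banach–Mazur distance, and the convergence is uniform over all bodies. -/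
theorem result (n : ℕ) (hn : 3 ≤ n) :
    (∀ K : Set (EuclideanSpace ℝ (Fin n)), IsSymmBody K →
      Tendsto (fun m : ℕ => banachMazur (intersectionBody^[m] K) (Metric.closedBall 0 1))
        atTop (𝓝 1)) ∧
    (∀ ε : ℝ, 0 < ε → ∃ N : ℕ, ∀ K : Set (EuclideanSpace ℝ (Fin n)), IsSymmBody K →
      ∀ m ≥ N, banachMazur (intersectionBody^[m] K) (Metric.closedBall 0 1) < 1 + ε) := by
  obtain ⟨h1, h2⟩ := Pool.Agent.H14IIB.main n hn
  refine ⟨fun K hK => h1 K (isBody hK), fun ε hε => ?_⟩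
  obtain ⟨N, hN⟩ := h2 ε hε
  exact ⟨N, fun K hK m hm => hN K (isBody hK) m hm⟩

end Pool.Agent.Results.MP_5ac201_gt.IteratedIntersection
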